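import Mathlib

set_option autoImplicit false

/-!
# MP_3cee42_co: a finite additive poset that is not plain

The additive poset has `16` elements: it is `(ZMod 2)^4` with only six nontrivial strict
inequalities between nonzero elements.
-/

namespace Pool.Agent.Results.MP_3cee42_co.NonPlainPoset

/-- The axioms of an additive poset for an abelian group `A` with a partial order. -/
def IsAdditivePoset (A : Type) [AddCommGroup A] [PartialOrder A] : Prop :=
  (∀ a b c : A, b ≤ a → c ≤ a → b + c ≤ a) ∧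
  (∀ a b c : A, a ≤ b → a ≤ c → a ≤ a + b + c)

/-- `φ` is an embedding of `A` into the additive powerset of `I`: the set of all subsets of `I`
with symmetric difference as addition and inclusion as order. -/
def IsEmbedding {A : Type} [AddCommGroup A] [PartialOrder A] {I : Type} (φ : A → Set I) : Prop :=
  Function.Injective φ ∧ (∀ a b : A, φ (a + b) = symmDiff (φ a) (φ b)) ∧
    ∀ a b : A, a ≤ b ↔ φ a ⊆ φ b

/-- The underlying group. -/
abbrev V : Type := ZMod 2 × ZMod 2 × ZMod 2 × ZMod 2

/-- The six nontrivial inequalities. -/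
def pairs : List (V × V) :=
  [((1, 0, 0, 0), (0, 0, 1, 1)), ((1, 0, 1, 1), (0, 0, 1, 1)),
   ((0, 1, 0, 0), (0, 0, 0, 1)), ((0, 1, 0, 1), (0, 0, 0, 1)),
   ((1, 0, 0, 1), (1, 1, 1, 0)), ((0, 1, 1, 1), (1, 1, 1, 0))]

/-- The order relation. -/
def le (a b : V) : Prop := a = 0 ∨ a = b ∨ (a, b) ∈ pairs

instance : DecidableRel le := fun a b => by unfold le; infer_instance

set_option maxRecDepth 10000 in
theorem le_trans' : ∀ a b c : V, le a b → le b c → le a c := by decide +kernel

set_option maxRecDepth 10000 in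
theorem le_antisymm' : ∀ a b : V, le a b → le b a → a = b := by decide +kernel

set_option maxRecDepth 10000 in
theorem ax1 : ∀ a b c : V, le b a → le c a → le (b + c) a := by decide +kernel

set_option maxRecDepth 10000 in
theorem ax2 : ∀ a b c : V, le a b → le a c → le a (a + b + c) := by decide +kernel

/-- The partial order on `V`. -/
@[reducible] def order : PartialOrder V where
  le := le
  le_refl := fun a => Or.inr (Or.inl rfl)
  le_trans := le_trans'
  le_antisymm := le_antisymm'

/-- **Q1 is false.**  There is a finite additive poset (with `16` elements) that has no embedding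
into an additive powerset `2^I`, whether `I` is finite or not. -/
theorem result : ∃ (A : Type) (_ : AddCommGroup A) (_ : PartialOrder A),
    Finite A ∧ Nat.card A = 16 ∧ IsAdditivePoset A ∧
      ∀ (I : Type) (φ : A → Set I), ¬ IsEmbedding φ := by
  refine ⟨V, inferInstance, order, inferInstance, ?_, ⟨ax1, ax2⟩, ?_⟩
  · simp
  · intro I φ hφ
    obtain ⟨_, hadd, hle⟩ := hφ
    -- `x = (1,1,0,1)` is not below `y = (1,0,1,0)`
    have hnot : ¬ (order.le (1, 1, 0, 1) (1, 0, 1, 0)) := by
      change ¬ le (1, 1, 0, 1) (1, 0, 1, 0)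
      decide
    apply hnot
    rw [hle]
    intro i hi
    -- membership of basis vectors
    have h1 : (order.le (1, 0, 0, 0) (0, 0, 1, 1)) := by
      change le (1, 0, 0, 0) (0, 0, 1, 1); decide
    have h2 : (order.le (0, 1, 0, 0) (0, 0, 0, 1)) := by
      change le (0, 1, 0, 0) (0, 0, 0, 1); decide
    have h3 : (order.le (1, 0, 0, 1) (1, 1, 1, 0)) := by
      change le (1, 0, 0, 1) (1, 1, 1, 0); decide
    rw [hle] at h1 h2 h3
    have g1 := @h1 i
    have g2 := @h2 i
    have g3 := @h3 i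
    have e : ∀ a b : V, (i ∈ φ (a + b) ↔ ¬ (i ∈ φ a ↔ i ∈ φ b)) := by
      intro a b
      rw [hadd, Set.mem_symmDiff]
      tauto
    have s1 := e (0, 0, 1, 0) (0, 0, 0, 1)
    have s2 := e (1, 0, 0, 0) (0, 0, 0, 1)
    have s3 := e (1, 1, 0, 0) (0, 0, 1, 0)
    have s4 := e (1, 0, 0, 0) (0, 1, 0, 0)
    have s5 := e (1, 1, 0, 0) (0, 0, 0, 1)
    have s6 := e (1, 0, 0, 0) (0, 0, 1, 0)
    have t1 : ((0, 0, 1, 0) + (0, 0, 0, 1) : V) = (0, 0, 1, 1) := by decide
    have t2 : ((1, 0, 0, 0) + (0, 0, 0, 1) : V) = (1, 0, 0, 1) := by decide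
    have t3 : ((1, 1, 0, 0) + (0, 0, 1, 0) : V) = (1, 1, 1, 0) := by decide
    have t4 : ((1, 0, 0, 0) + (0, 1, 0, 0) : V) = (1, 1, 0, 0) := by decide
    have t5 : ((1, 1, 0, 0) + (0, 0, 0, 1) : V) = (1, 1, 0, 1) := by decide
    have t6 : ((1, 0, 0, 0) + (0, 0, 1, 0) : V) = (1, 0, 1, 0) := by decide
    rw [t1] at s1
    rw [t2] at s2
    rw [t3] at s3
    rw [t4] at s4
    rw [t5] at s5
    rw [t6] at s6
    by_cases p0 : i ∈ φ (1, 0, 0, 0) <;> by_cases p1 : i ∈ φ (0, 1, 0, 0) <;>
      by_cases p2 : i ∈ φ (0, 0, 1, 0) <;> by_cases p3 : i ∈ φ (0, 0, 0, 1) <;>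
      simp_all

end Pool.Agent.Results.MP_3cee42_co.NonPlainPoset
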